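import Pool.Agent.Lib.H37R.Main

/-!
# RCA0 does not prove that SRT^2_2 implies (for all k) RWKL_k

The definitions of the statement are in `Pool.Agent.Lib.H37R.L2`; a full proof on paper is in
`Pool/Agent/Lib/H37R/PROOF.md`.
-/

namespace Pool.Agent.Results.MP_674835_lc.StableRamseyNotAllRWKL

open Pool.Agent.Lib.H37R

/-- There is a model `(N, S)` of `RCA_0 + SRT^2_2` in which `RWKL_k` fails for some `k` of its
first order part. -/
theorem result : ∃ (N : Type) (_ : Zero N) (_ : One N) (_ : Add N) (_ : Mul N) (_ : LT N)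
    (S : Set (Set N)), RCA0 N S ∧ SRT22 S ∧ ¬ ∀ k : N, RWKL S k :=
  main

end Pool.Agent.Results.MP_674835_lc.StableRamseyNotAllRWKL
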